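import Mathlib

set_option autoImplicit false

open Finset

namespace Pool.Agent.Results.MP_400093_an.SixCycle

/-- Upper triangular matrices `(x, y, z)`. -/
abbrev Pt := ℝ × ℝ × ℝ

/-- Rank-one directions: nonzero with determinant `u v = 0`. -/
def RankOneDir (D : Pt) : Prop := D ≠ 0 ∧ D.1 * D.2.1 = 0

/-- Rank-one convex functions. -/
def RankOneConvex (f : Pt → ℝ) : Prop :=
  ∀ A D : Pt, RankOneDir D → ConvexOn ℝ Set.univ (fun t : ℝ => f (A + t • D))

/-- The rank-one convex hull. -/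
def convrc (K : Set Pt) : Set Pt :=
  {A | ∀ f : Pt → ℝ, RankOneConvex f → (∀ B ∈ K, f B = 0) → f A ≤ 0}

/-- `T₄` configurations (degenerate ones, with some `α j = 1`, are allowed). -/
def IsT4 (Q : Fin 4 → Pt) : Prop :=
  ∃ (P : Pt) (C : Fin 4 → Pt) (α : Fin 4 → ℝ), (∀ j, RankOneDir (C j)) ∧ ∑ j, C j = 0 ∧
    (∀ j, 1 ≤ α j) ∧ ∀ j, Q j = P + ∑ i ∈ univ.filter (fun i => i < j), C i + α j • C j

/-- The sets `K^(i)`. -/
def iter (K : Set Pt) : ℕ → Set Pt
  | 0 => K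
  | i + 1 => iter K i ∪
      {A | ∃ Q : Fin 4 → Pt, (∀ j, Q j ∈ iter K i) ∧ IsT4 Q ∧ A ∈ convrc (Set.range Q)} ∪
      {A | ∃ B ∈ iter K i, ∃ B' ∈ iter K i, RankOneDir (B' - B) ∧ A ∈ segment ℝ B B'}

/-! ### Piecewise linear interpolation -/

/-- Piecewise linear interpolation. -/
noncomputable def interp (a : ℤ → ℝ) (x : ℝ) : ℝ :=
  (1 - Int.fract x) * a ⌊x⌋ + Int.fract x * a (⌊x⌋ + 1)

theorem interp_int (a : ℤ → ℝ) (i : ℤ) : interp a i = a i := by
  simp [interp]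

theorem interp_eq (a : ℤ → ℝ) (x : ℝ) :
    interp a x = a ⌊x⌋ + (a (⌊x⌋ + 1) - a ⌊x⌋) * (x - ⌊x⌋) := by
  unfold interp
  rw [← Int.self_sub_floor]
  ring

theorem line_up (a : ℤ → ℝ) (ha : ∀ i, a (i - 1) + a (i + 1) ≤ 2 * a i) (x : ℝ) (i : ℤ) (n : ℕ)
    (h : ((i + n : ℤ) : ℝ) ≤ x) :
    a (i + n) + (a (i + n + 1) - a (i + n)) * (x - (i + n : ℤ)) ≤
      a i + (a (i + 1) - a i) * (x - i) := by
  induction n with
  | zero => simp
  | succ n ih =>
    have h1 : ((i + n : ℤ) : ℝ) ≤ x := by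
      push_cast at h ⊢
      linarith
    refine le_trans ?_ (ih h1)
    have h2 := ha (i + n + 1)
    rw [show i + (n : ℤ) + 1 - 1 = i + n by ring] at h2
    have e1 : i + ((n + 1 : ℕ) : ℤ) = i + n + 1 := by push_cast; ring
    rw [e1] at h ⊢
    push_cast at h ⊢
    nlinarith

theorem line_down (a : ℤ → ℝ) (ha : ∀ i, a (i - 1) + a (i + 1) ≤ 2 * a i) (x : ℝ) (i : ℤ) (n : ℕ)
    (h : x ≤ ((i - n + 1 : ℤ) : ℝ)) :
    a (i - n) + (a (i - n + 1) - a (i - n)) * (x - (i - n : ℤ)) ≤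
      a i + (a (i + 1) - a i) * (x - i) := by
  induction n with
  | zero => simp
  | succ n ih =>
    have h1 : x ≤ ((i - n + 1 : ℤ) : ℝ) := by
      push_cast at h ⊢
      linarith
    refine le_trans ?_ (ih h1)
    have h2 := ha (i - n)
    have e1 : i - ((n + 1 : ℕ) : ℤ) = i - n - 1 := by push_cast; ring
    rw [e1] at h ⊢
    rw [show i - (n : ℤ) - 1 + 1 = i - n by ring] at h ⊢
    push_cast at h ⊢
    nlinarith

theorem interp_le_line (a : ℤ → ℝ) (ha : ∀ i, a (i - 1) + a (i + 1) ≤ 2 * a i) (i : ℤ) (x : ℝ) :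
    interp a x ≤ a i + (a (i + 1) - a i) * (x - i) := by
  rw [interp_eq]
  rcases le_or_gt i ⌊x⌋ with h | h
  · obtain ⟨n, hn⟩ := Int.eq_ofNat_of_zero_le (sub_nonneg.2 h)
    have h1 : ⌊x⌋ = i + n := by omega
    have h2 := line_up a ha x i n (by rw [← h1]; exact Int.floor_le x)
    rw [← h1] at h2
    exact h2
  · obtain ⟨n, hn⟩ := Int.eq_ofNat_of_zero_le (sub_nonneg.2 h.le)
    have h1 : ⌊x⌋ = i - n := by omega
    have h2 := line_down a ha x i n (by
      rw [← h1]; push_cast; exact (Int.lt_floor_add_one x).le)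
    rw [← h1] at h2
    exact h2

theorem interp_concave (a : ℤ → ℝ) (ha : ∀ i, a (i - 1) + a (i + 1) ≤ 2 * a i) :
    ConcaveOn ℝ Set.univ (interp a) := by
  refine ⟨convex_univ, fun x _ y _ α β hα hβ hαβ => ?_⟩
  simp only [smul_eq_mul]
  have h1 := interp_le_line a ha ⌊α * x + β * y⌋ x
  have h2 := interp_le_line a ha ⌊α * x + β * y⌋ y
  rw [interp_eq a (α * x + β * y)]
  set i := ⌊α * x + β * y⌋
  have h3 := mul_le_mul_of_nonneg_left h1 hα
  have h4 := mul_le_mul_of_nonneg_left h2 hβ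
  have h5 : β = 1 - α := by linarith
  subst h5
  nlinarith

/-- Bilinear interpolation. -/
noncomputable def I (Γ : ℤ → ℤ → ℝ) (x y : ℝ) : ℝ := interp (fun i => interp (Γ i) y) x

theorem I_swap (Γ : ℤ → ℤ → ℝ) (x y : ℝ) :
    I Γ x y = interp (fun j => interp (fun i => Γ i j) x) y := by
  unfold I interp
  ring

theorem I_int (Γ : ℤ → ℤ → ℝ) (i j : ℤ) : I Γ i j = Γ i j := by
  unfold I
  rw [interp_int, interp_int]

theorem interp_seq (a b c : ℤ → ℝ) (h : ∀ i, a i + c i ≤ 2 * b i) (x : ℝ) :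
    interp a x + interp c x ≤ 2 * interp b x := by
  unfold interp
  have h1 := h ⌊x⌋
  have h2 := h (⌊x⌋ + 1)
  have h3 := Int.fract_nonneg x
  have h4 := (Int.fract_lt_one x).le
  nlinarith

/-- Separate concavity on the integer lattice. -/
def SepConc (Γ : ℤ → ℤ → ℝ) : Prop :=
  (∀ i j, Γ (i - 1) j + Γ (i + 1) j ≤ 2 * Γ i j) ∧ (∀ i j, Γ i (j - 1) + Γ i (j + 1) ≤ 2 * Γ i j)

theorem I_concave_x (Γ : ℤ → ℤ → ℝ) (h : SepConc Γ) (y : ℝ) :
    ConcaveOn ℝ Set.univ (fun x => I Γ x y) :=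
  interp_concave _ fun i => interp_seq _ _ _ (fun j => h.1 i j) y

theorem I_concave_y (Γ : ℤ → ℤ → ℝ) (h : SepConc Γ) (x : ℝ) :
    ConcaveOn ℝ Set.univ (fun y => I Γ x y) := by
  have h1 : (fun y => I Γ x y) = interp (fun j => interp (fun i => Γ i j) x) := by
    funext y
    exact I_swap Γ x y
  rw [h1]
  exact interp_concave _ fun j => interp_seq _ _ _ (fun i => h.2 i j) x

theorem conc_line (h : ℝ → ℝ) (hh : ConcaveOn ℝ Set.univ h) (p q : ℝ) :
    ConcaveOn ℝ Set.univ (fun t : ℝ => h (p + t * q)) := by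
  refine ⟨convex_univ, fun s _ t _ α β hα hβ hαβ => ?_⟩
  have h1 := hh.2 (Set.mem_univ (p + s * q)) (Set.mem_univ (p + t * q)) hα hβ hαβ
  simp only [smul_eq_mul] at h1 ⊢
  have h2 : α * (p + s * q) + β * (p + t * q) = p + (α * s + β * t) * q := by
    linear_combination p * hαβ
  rw [h2] at h1
  exact h1

theorem roc (c : ℝ) (Γ : ℤ → ℤ → ℝ) (h : SepConc Γ) :
    RankOneConvex (fun A => c * A.2.2 - I Γ A.1 A.2.1) := by
  rintro ⟨x, y, z⟩ ⟨u, v, w⟩ ⟨_, huv⟩
  have hlin : ConvexOn ℝ Set.univ (fun t : ℝ => c * (z + t * w)) := by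
    refine ⟨convex_univ, fun s _ t _ α β _ _ hαβ => ?_⟩
    simp only [smul_eq_mul]
    apply le_of_eq
    linear_combination (-(c * z)) * hαβ
  have huv' : u * v = 0 := huv
  rcases mul_eq_zero.1 huv' with h0 | h0
  · subst h0
    have h1 := hlin.sub (conc_line _ (I_concave_y Γ h x) y v)
    refine h1.congr (fun t _ => ?_)
    simp
  · subst h0
    have h1 := hlin.sub (conc_line _ (I_concave_x Γ h y) x u)
    refine h1.congr (fun t _ => ?_)
    simp

/-! ### Extension of a `6 × 6` table to the lattice -/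

/-- Clamp to `{0, …, 5}`. -/
def cl (i : ℤ) : Fin 6 := ⟨(max 0 (min 5 i)).toNat, by omega⟩

/-- Distance to `{0, …, 5}`. -/
def ds (i : ℤ) : ℤ := max 0 (max (-i) (i - 5))

theorem cl_low (i : ℤ) (h : i ≤ 0) : cl i = 0 := by
  apply Fin.ext
  show (max 0 (min 5 i)).toNat = 0
  omega

theorem cl_high (i : ℤ) (h : 5 ≤ i) : cl i = 5 := by
  apply Fin.ext
  show (max 0 (min 5 i)).toNat = 5
  omega

/-- The conditions on a row of the table. -/
def RowOK (C : ℤ) (a : Fin 6 → ℤ) : Prop :=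
  a 1 - a 0 ≤ C ∧ a 4 - a 5 ≤ C ∧ a 0 + a 2 ≤ 2 * a 1 ∧ a 1 + a 3 ≤ 2 * a 2 ∧
    a 2 + a 4 ≤ 2 * a 3 ∧ a 3 + a 5 ≤ 2 * a 4

instance (C : ℤ) (a : Fin 6 → ℤ) : Decidable (RowOK C a) := by unfold RowOK; infer_instance

theorem ext_row (C : ℤ) (a : Fin 6 → ℤ) (h : RowOK C a) (i : ℤ) :
    (a (cl (i - 1)) - C * ds (i - 1)) + (a (cl (i + 1)) - C * ds (i + 1)) ≤
      2 * (a (cl i) - C * ds i) := by
  obtain ⟨h0, h5, h1, h2, h3, h4⟩ := h
  rcases (by omega : i ≤ -1 ∨ 6 ≤ i ∨ i = 0 ∨ i = 1 ∨ i = 2 ∨ i = 3 ∨ i = 4 ∨ i = 5) with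
    h | h | h | h | h | h | h | h
  · rw [cl_low _ (by omega : i - 1 ≤ 0), cl_low _ (by omega : i + 1 ≤ 0),
      cl_low _ (by omega : i ≤ 0)]
    have e1 : ds (i - 1) = 1 - i := by unfold ds; omega
    have e2 : ds (i + 1) = -1 - i := by unfold ds; omega
    have e3 : ds i = -i := by unfold ds; omega
    rw [e1, e2, e3]
    apply le_of_eq; ring
  · rw [cl_high _ (by omega : 5 ≤ i - 1), cl_high _ (by omega : 5 ≤ i + 1),
      cl_high _ (by omega : 5 ≤ i)]
    have e1 : ds (i - 1) = i - 6 := by unfold ds; omega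
    have e2 : ds (i + 1) = i - 4 := by unfold ds; omega
    have e3 : ds i = i - 5 := by unfold ds; omega
    rw [e1, e2, e3]
    apply le_of_eq; ring
  · subst h
    have c1 : cl (0 - 1) = 0 := by decide
    have c2 : cl (0 + 1) = 1 := by decide
    have c3 : cl 0 = 0 := by decide
    have d1 : ds (0 - 1) = 1 := by decide
    have d2 : ds (0 + 1) = 0 := by decide
    have d3 : ds 0 = 0 := by decide
    rw [c1, c2, c3, d1, d2, d3]; linarith
  · subst h
    have c1 : cl (1 - 1) = 0 := by decide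
    have c2 : cl (1 + 1) = 2 := by decide
    have c3 : cl 1 = 1 := by decide
    have d1 : ds (1 - 1) = 0 := by decide
    have d2 : ds (1 + 1) = 0 := by decide
    have d3 : ds 1 = 0 := by decide
    rw [c1, c2, c3, d1, d2, d3]; linarith
  · subst h
    have c1 : cl (2 - 1) = 1 := by decide
    have c2 : cl (2 + 1) = 3 := by decide
    have c3 : cl 2 = 2 := by decide
    have d1 : ds (2 - 1) = 0 := by decide
    have d2 : ds (2 + 1) = 0 := by decide
    have d3 : ds 2 = 0 := by decide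
    rw [c1, c2, c3, d1, d2, d3]; linarith
  · subst h
    have c1 : cl (3 - 1) = 2 := by decide
    have c2 : cl (3 + 1) = 4 := by decide
    have c3 : cl 3 = 3 := by decide
    have d1 : ds (3 - 1) = 0 := by decide
    have d2 : ds (3 + 1) = 0 := by decide
    have d3 : ds 3 = 0 := by decide
    rw [c1, c2, c3, d1, d2, d3]; linarith
  · subst h
    have c1 : cl (4 - 1) = 3 := by decide
    have c2 : cl (4 + 1) = 5 := by decide
    have c3 : cl 4 = 4 := by decide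
    have d1 : ds (4 - 1) = 0 := by decide
    have d2 : ds (4 + 1) = 0 := by decide
    have d3 : ds 4 = 0 := by decide
    rw [c1, c2, c3, d1, d2, d3]; linarith
  · subst h
    have c1 : cl (5 - 1) = 4 := by decide
    have c2 : cl (5 + 1) = 5 := by decide
    have c3 : cl 5 = 5 := by decide
    have d1 : ds (5 - 1) = 0 := by decide
    have d2 : ds (5 + 1) = 1 := by decide
    have d3 : ds 5 = 0 := by decide
    rw [c1, c2, c3, d1, d2, d3]; linarith

/-- The extension of a table. -/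
def ext (C : ℤ) (t : Fin 6 → Fin 6 → ℤ) (i j : ℤ) : ℤ := t (cl i) (cl j) - C * ds i - C * ds j

theorem ext_sep (C : ℤ) (t : Fin 6 → Fin 6 → ℤ) (h1 : ∀ j, RowOK C (fun i => t i j))
    (h2 : ∀ i, RowOK C (t i)) : SepConc (fun i j => (ext C t i j : ℝ)) := by
  constructor
  · intro i j
    have h := ext_row C _ (h1 (cl j)) i
    have h' : ext C t (i - 1) j + ext C t (i + 1) j ≤ 2 * ext C t i j := by
      unfold ext; linarith
    show (ext C t (i - 1) j : ℝ) + (ext C t (i + 1) j : ℝ) ≤ 2 * (ext C t i j : ℝ)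
    exact_mod_cast h'
  · intro i j
    have h := ext_row C _ (h2 (cl i)) j
    have h' : ext C t i (j - 1) + ext C t i (j + 1) ≤ 2 * ext C t i j := by
      unfold ext; linarith
    show (ext C t i (j - 1) : ℝ) + (ext C t i (j + 1) : ℝ) ≤ 2 * (ext C t i j : ℝ)
    exact_mod_cast h'

/-! ### The tables -/

/-- The top face. -/
def g : Fin 6 → Fin 6 → ℤ :=
  ![![-290, -130, 5, 115, -75, -290], ![0, 44, 88, 132, 39, -130], ![-35, 68, 146, 149, 127, 5],
    ![-95, 92, 179, 166, 153, 115], ![-180, 116, 137, 158, 179, 200],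
    ![-290, 140, 70, -25, -145, -290]]

/-- The perturbations. -/
def ph : Fin 6 → Fin 6 → Fin 6 → ℤ :=
  ![![![1, 1, 1, 288, 1, 1], ![0, 64, 128, 192, 1, 1], ![1, 48, 1, 96, 0, 1],
      ![1, 32, 0, 1, 2, 1], ![1, 16, 12, 8, 4, 0], ![1, 0, 1, 1, 1, 1]],
    ![![1, 1, 1, 0, 1, 1], ![288, 192, 96, 1, 1, 1], ![1, 144, 1, 2, 0, 1],
      ![1, 96, 0, 3, 6, 1], ![1, 48, 36, 24, 12, 0], ![1, 0, 1, 1, 1, 1]],
    ![![1, 1, 1, 0, 1, 1], ![0, 1, 2, 3, 1, 1], ![1, 48, 1, 6, 0, 1],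
      ![1, 96, 0, 9, 18, 1], ![1, 144, 108, 72, 36, 0], ![1, 192, 1, 1, 1, 1]],
    ![![1, 1, 1, 0, 1, 1], ![0, 4, 8, 12, 1, 1], ![1, 3, 1, 24, 0, 1],
      ![1, 2, 0, 36, 72, 1], ![1, 1, 48, 96, 144, 192], ![1, 0, 1, 1, 1, 1]],
    ![![1, 1, 1, 0, 1, 1], ![0, 16, 32, 48, 1, 1], ![1, 12, 1, 96, 575, 1],
      ![1, 8, 0, 144, 288, 1], ![1, 4, 3, 2, 1, 0], ![1, 0, 1, 1, 1, 1]],
    ![![1, 1, 1, 0, 1, 1], ![0, 32, 64, 96, 1, 1], ![1, 24, 1, 192, 0, 1],
      ![1, 16, 575, 288, 1, 1], ![1, 8, 6, 4, 2, 0], ![1, 0, 1, 1, 1, 1]]]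

/-- The terminals, planar coordinates. -/
def kx : Fin 6 → Fin 6 := ![0, 1, 5, 4, 2, 3]
/-- The terminals, planar coordinates. -/
def ky : Fin 6 → Fin 6 := ![3, 0, 1, 5, 4, 2]

theorem g_ok1 : ∀ j, RowOK 1000 (fun i => g i j) := by decide
theorem g_ok2 : ∀ i, RowOK 1000 (g i) := by decide
theorem gk_ok1 : ∀ k j, RowOK 18001 (fun i => 18 * g i j - ph k i j) := by decide
theorem gk_ok2 : ∀ k i, RowOK 18001 (fun j => 18 * g i j - ph k i j) := by decide
theorem ph_nonneg : ∀ k i j, 0 ≤ ph k i j := by decide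
theorem ph_zero : ∀ k i j, ph k i j = 0 → ∃ l, i = kx l ∧ j = ky l := by decide
theorem ph_term : ∀ k l, l ≠ k → ph k (kx l) (ky l) = 0 := by decide

theorem kx_inj : ∀ l l', kx l = kx l' → l = l' := by decide
theorem ky_inj : ∀ l l', ky l = ky l' → l = l' := by decide

theorem cl_val (a : Fin 6) : cl ((a : ℕ) : ℤ) = a := by
  revert a; decide

theorem ds_val (a : Fin 6) : ds ((a : ℕ) : ℤ) = 0 := by
  revert a; decide

theorem ds_nonneg (i : ℤ) : 0 ≤ ds i := by unfold ds; omega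

theorem val_cl (i : ℤ) (h : ds i = 0) : (((cl i : Fin 6) : ℕ) : ℤ) = i := by
  show (((max 0 (min 5 i)).toNat : ℕ) : ℤ) = i
  unfold ds at h
  omega

/-- The terminals. -/
noncomputable def κ (l : Fin 6) : Pt :=
  (((kx l : ℕ) : ℝ), ((ky l : ℕ) : ℝ), ((g (kx l) (ky l) : ℤ) : ℝ))

/-- The main separating function. -/
noncomputable def F0 (A : Pt) : ℝ := 1 * A.2.2 - I (fun i j => (ext 1000 g i j : ℝ)) A.1 A.2.1

/-- The separating function omitting a terminal. -/
noncomputable def Fk (k : Fin 6) (A : Pt) : ℝ := 18 * A.2.2 -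
  I (fun i j => (ext 18001 (fun i j => 18 * g i j - ph k i j) i j : ℝ)) A.1 A.2.1

theorem F0_roc : RankOneConvex F0 := roc 1 _ (ext_sep 1000 g g_ok1 g_ok2)

theorem Fk_roc (k : Fin 6) : RankOneConvex (Fk k) :=
  roc 18 _ (ext_sep 18001 _ (gk_ok1 k) (gk_ok2 k))

/-- The extended perturbation. -/
def phe (k : Fin 6) (i j : ℤ) : ℤ := ph k (cl i) (cl j) + ds i + ds j

theorem phe_nonneg (k : Fin 6) (i j : ℤ) : 0 ≤ phe k i j := by
  unfold phe
  have := ph_nonneg k (cl i) (cl j)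
  have := ds_nonneg i
  have := ds_nonneg j
  linarith

theorem phe_zero (k : Fin 6) (i j : ℤ) (h : phe k i j = 0) :
    ∃ l, i = ((kx l : ℕ) : ℤ) ∧ j = ((ky l : ℕ) : ℤ) := by
  unfold phe at h
  have h1 := ph_nonneg k (cl i) (cl j)
  have h2 := ds_nonneg i
  have h3 := ds_nonneg j
  obtain ⟨l, hl1, hl2⟩ := ph_zero k (cl i) (cl j) (by linarith)
  refine ⟨l, ?_, ?_⟩
  · rw [← hl1, val_cl i (by linarith)]
  · rw [← hl2, val_cl j (by linarith)]

theorem Fk_eq (k : Fin 6) (A : Pt) :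
    Fk k A = 18 * F0 A + I (fun i j => (phe k i j : ℝ)) A.1 A.2.1 := by
  have h : ∀ i j, ((ext 18001 (fun i j => 18 * g i j - ph k i j) i j : ℤ) : ℝ) =
      18 * (ext 1000 g i j : ℝ) - (phe k i j : ℝ) := by
    intro i j
    unfold ext phe
    push_cast
    ring
  unfold Fk F0 I interp
  simp only [h]
  ring

theorem I_phe (k : Fin 6) (x y : ℝ) (h : I (fun i j => (phe k i j : ℝ)) x y ≤ 0) :
    ∃ l, x = ((kx l : ℕ) : ℝ) ∧ y = ((ky l : ℕ) : ℝ) := by
  have hp : ∀ i j, (0 : ℝ) ≤ (phe k i j : ℝ) := fun i j => by exact_mod_cast phe_nonneg k i j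
  unfold I interp at h
  simp only at h
  set i := ⌊x⌋ with hi
  set j := ⌊y⌋ with hj
  set s := Int.fract x with hs
  set t := Int.fract y with ht
  have hs0 : 0 ≤ s := Int.fract_nonneg x
  have hs1 : 0 < 1 - s := sub_pos.2 (Int.fract_lt_one x)
  have ht0 : 0 ≤ t := Int.fract_nonneg y
  have ht1 : 0 < 1 - t := sub_pos.2 (Int.fract_lt_one y)
  have a1 : 0 ≤ (1 - s) * ((1 - t) * (phe k i j : ℝ)) :=
    mul_nonneg hs1.le (mul_nonneg ht1.le (hp _ _))
  have a2 : 0 ≤ (1 - s) * (t * (phe k i (j + 1) : ℝ)) :=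
    mul_nonneg hs1.le (mul_nonneg ht0 (hp _ _))
  have a3 : 0 ≤ s * ((1 - t) * (phe k (i + 1) j : ℝ)) :=
    mul_nonneg hs0 (mul_nonneg ht1.le (hp _ _))
  have a4 : 0 ≤ s * (t * (phe k (i + 1) (j + 1) : ℝ)) :=
    mul_nonneg hs0 (mul_nonneg ht0 (hp _ _))
  have b1 : (1 - s) * ((1 - t) * (phe k i j : ℝ)) = 0 := by linarith
  have b2 : (1 - s) * (t * (phe k i (j + 1) : ℝ)) = 0 := by linarith
  have b3 : s * ((1 - t) * (phe k (i + 1) j : ℝ)) = 0 := by linarith
  have c1 : phe k i j = 0 := by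
    have := mul_eq_zero.1 b1
    rcases this with h | h
    · exact absurd h hs1.ne'
    · rcases mul_eq_zero.1 h with h | h
      · exact absurd h ht1.ne'
      · exact_mod_cast h
  obtain ⟨l, hl1, hl2⟩ := phe_zero k i j c1
  have hs' : s = 0 := by
    by_contra hne
    have c3 : phe k (i + 1) j = 0 := by
      rcases mul_eq_zero.1 b3 with h | h
      · exact absurd h hne
      · rcases mul_eq_zero.1 h with h | h
        · exact absurd h ht1.ne'
        · exact_mod_cast h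
    obtain ⟨l', hl1', hl2'⟩ := phe_zero k _ _ c3
    have h1 : ky l = ky l' := by
      apply Fin.ext
      have : ((ky l : ℕ) : ℤ) = ((ky l' : ℕ) : ℤ) := by rw [← hl2, ← hl2']
      exact_mod_cast this
    rw [← ky_inj _ _ h1] at hl1'
    omega
  have ht' : t = 0 := by
    by_contra hne
    have c2 : phe k i (j + 1) = 0 := by
      rcases mul_eq_zero.1 b2 with h | h
      · exact absurd h hs1.ne'
      · rcases mul_eq_zero.1 h with h | h
        · exact absurd h hne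
        · exact_mod_cast h
    obtain ⟨l', hl1', hl2'⟩ := phe_zero k _ _ c2
    have h1 : kx l = kx l' := by
      apply Fin.ext
      have : ((kx l : ℕ) : ℤ) = ((kx l' : ℕ) : ℤ) := by rw [← hl1, ← hl1']
      exact_mod_cast this
    rw [← kx_inj _ _ h1] at hl2'
    omega
  refine ⟨l, ?_, ?_⟩
  · have h1 : x = (i : ℝ) := by
      have := Int.self_sub_floor x
      rw [← hs, hs'] at this
      linarith
    rw [h1, hl1]; norm_cast
  · have h1 : y = (j : ℝ) := by
      have := Int.self_sub_floor y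
      rw [← ht, ht'] at this
      linarith
    rw [h1, hl2]; norm_cast

theorem I_at (C : ℤ) (t : Fin 6 → Fin 6 → ℤ) (a b : Fin 6) :
    I (fun i j => (ext C t i j : ℝ)) ((a : ℕ) : ℝ) ((b : ℕ) : ℝ) = (t a b : ℝ) := by
  have h := I_int (fun i j => (ext C t i j : ℝ)) ((a : ℕ) : ℤ) ((b : ℕ) : ℤ)
  simp only [Int.cast_natCast] at h
  rw [h]
  unfold ext
  rw [cl_val, cl_val, ds_val, ds_val]
  simp

theorem F0_κ (l : Fin 6) : F0 (κ l) = 0 := by
  show 1 * ((g (kx l) (ky l) : ℤ) : ℝ) -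
    I (fun i j => (ext 1000 g i j : ℝ)) ((kx l : ℕ) : ℝ) ((ky l : ℕ) : ℝ) = 0
  rw [I_at]
  ring

theorem Fk_κ (k l : Fin 6) (h : l ≠ k) : Fk k (κ l) = 0 := by
  show 18 * ((g (kx l) (ky l) : ℤ) : ℝ) -
    I (fun i j => (ext 18001 (fun i j => 18 * g i j - ph k i j) i j : ℝ))
      ((kx l : ℕ) : ℝ) ((ky l : ℕ) : ℝ) = 0
  rw [I_at, ph_term k l h]
  push_cast
  ring

/-! ### Cones of rank-one convex functions -/

theorem RankOneConvex.add_mul {f h : Pt → ℝ} (hf : RankOneConvex f) (hh : RankOneConvex h)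
    (c : ℝ) (hc : 0 ≤ c) : RankOneConvex (fun A => f A + c * h A) := by
  intro A D hD
  have h1 := (hf A D hD).add ((hh A D hD).smul hc)
  refine h1.congr (fun t _ => ?_)
  simp

theorem RankOneConvex.pos {f : Pt → ℝ} (hf : RankOneConvex f) :
    RankOneConvex (fun A => max (f A) 0) := by
  intro A D hD
  have h1 := (hf A D hD).sup (convexOn_const (0 : ℝ) convex_univ)
  refine h1.congr (fun t _ => ?_)
  simp

/-- On `convrc` of a set where `f ≤ 0`, `f ≤ 0`. -/
theorem le_of_convrc {K : Set Pt} {A : Pt} (hA : A ∈ convrc K) {f : Pt → ℝ}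
    (hf : RankOneConvex f) (hK : ∀ B ∈ K, f B ≤ 0) : f A ≤ 0 := by
  have h1 := hA _ hf.pos (fun B hB => max_eq_right (hK B hB))
  exact (le_max_left _ _).trans h1

/-! ### The invariant -/

/-- The invariant set. -/
def U : Set Pt := {A | F0 A < 0 ∨ ∃ l, A = κ l}

theorem F0_le (A : Pt) (hA : A ∈ U) : F0 A ≤ 0 := by
  rcases hA with h | ⟨l, rfl⟩
  · exact h.le
  · exact (F0_κ l).le

theorem κ_inj : Function.Injective κ := by
  intro l l' h
  have h1 : ((kx l : ℕ) : ℝ) = ((kx l' : ℕ) : ℝ) := congrArg Prod.fst h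
  apply kx_inj
  apply Fin.ext
  exact_mod_cast h1

theorem four_step (Q : Fin 4 → Pt) (hQ : ∀ j, Q j ∈ U) (A : Pt)
    (hA : A ∈ convrc (Set.range Q)) : A ∈ U := by
  have h0 : F0 A ≤ 0 := le_of_convrc hA F0_roc (by
    rintro B ⟨j, rfl⟩
    exact F0_le _ (hQ j))
  rcases h0.lt_or_eq with h | h
  · exact Or.inl h
  right
  -- an omitted terminal
  obtain ⟨k, hk⟩ : ∃ k : Fin 6, ∀ j, Q j ≠ κ k := by
    by_contra hno
    push Not at hno
    choose J hJ using hno
    have hinj : Function.Injective J := by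
      intro k k' hkk
      apply κ_inj
      rw [← hJ k, ← hJ k', hkk]
    have := Fintype.card_le_of_injective J hinj
    simp at this
  set c : ℝ := ∑ j, |Fk k (Q j)| / |F0 (Q j)| with hc
  have hc0 : 0 ≤ c := sum_nonneg fun j _ => by positivity
  have h1 : Fk k A + c * F0 A ≤ 0 := by
    refine le_of_convrc (f := fun A => Fk k A + c * F0 A) hA
      ((Fk_roc k).add_mul F0_roc c hc0) ?_
    rintro B ⟨j, rfl⟩
    show Fk k (Q j) + c * F0 (Q j) ≤ 0
    rcases hQ j with h2 | ⟨l, hl⟩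
    · have h3 : |Fk k (Q j)| / |F0 (Q j)| ≤ c :=
        single_le_sum (f := fun j => |Fk k (Q j)| / |F0 (Q j)|) (fun j _ => by positivity)
          (mem_univ j)
      have h4 : |F0 (Q j)| = -F0 (Q j) := abs_of_neg h2
      rw [h4, div_le_iff₀ (by linarith)] at h3
      have h5 := le_abs_self (Fk k (Q j))
      linarith
    · have hlk : l ≠ k := by
        rintro rfl
        exact hk j hl
      rw [hl, Fk_κ k l hlk, F0_κ]
      simp
  rw [h, mul_zero, add_zero, Fk_eq, h, mul_zero, zero_add] at h1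
  obtain ⟨l, hx, hy⟩ := I_phe k _ _ h1
  refine ⟨l, ?_⟩
  have hz : A.2.2 = ((g (kx l) (ky l) : ℤ) : ℝ) := by
    unfold F0 at h
    rw [hx, hy, I_at] at h
    linarith
  exact Prod.ext hx (Prod.ext hy hz)

theorem segment_step (B B' : Pt) (hB : B ∈ U) (hB' : B' ∈ U) (hd : RankOneDir (B' - B)) (A : Pt)
    (hA : A ∈ segment ℝ B B') : A ∈ U := by
  rw [segment_eq_image'] at hA
  obtain ⟨t, ⟨ht0, ht1⟩, rfl⟩ := hA
  have hconv := (F0_roc B (B' - B) hd).2 (Set.mem_univ (0 : ℝ)) (Set.mem_univ (1 : ℝ))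
    (sub_nonneg.2 ht1) ht0 (by ring)
  simp only [smul_eq_mul, mul_zero, mul_one, zero_add, zero_smul, add_zero, one_smul,
    add_sub_cancel] at hconv
  have hB0 := F0_le B hB
  have hB0' := F0_le B' hB'
  show F0 (B + t • (B' - B)) < 0 ∨ ∃ l, B + t • (B' - B) = κ l
  rcases eq_or_lt_of_le ht0 with h0 | h0
  · rw [← h0, zero_smul, add_zero]; exact hB
  rcases eq_or_lt_of_le ht1 with h1 | h1
  · rw [h1, one_smul, add_sub_cancel]; exact hB'
  left
  by_contra hno
  push Not at hno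
  have e1 : F0 B = 0 := by nlinarith
  have e2 : F0 B' = 0 := by nlinarith
  rcases hB with hB | ⟨l, hl⟩
  · linarith
  rcases hB' with hB' | ⟨l', hl'⟩
  · linarith
  subst hl
  subst hl'
  have hne : l ≠ l' := by
    rintro rfl
    exact hd.1 (sub_self _)
  have h2 : (((kx l' : ℕ) : ℝ) - ((kx l : ℕ) : ℝ)) * (((ky l' : ℕ) : ℝ) - ((ky l : ℕ) : ℝ)) = 0 :=
    hd.2
  rcases mul_eq_zero.1 h2 with h | h
  · apply hne
    apply kx_inj
    apply Fin.ext
    have : ((kx l : ℕ) : ℝ) = ((kx l' : ℕ) : ℝ) := by linarith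
    exact_mod_cast this
  · apply hne
    apply ky_inj
    apply Fin.ext
    have : ((ky l : ℕ) : ℝ) = ((ky l' : ℕ) : ℝ) := by linarith
    exact_mod_cast this

theorem iter_sub (n : ℕ) : iter (Set.range κ) n ⊆ U := by
  induction n with
  | zero =>
    rintro A ⟨l, rfl⟩
    exact Or.inr ⟨l, rfl⟩
  | succ n ih =>
    rintro A ((hA | ⟨Q, hQ, _, hA⟩) | ⟨B, hB, B', hB', hd, hA⟩)
    · exact ih hA
    · exact four_step Q (fun j => ih (hQ j)) A hA
    · exact segment_step B B' (ih hB) (ih hB') hd A hA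

/-! ### The point of the rank-one convex hull -/

/-- The point outside the `T₄` hull. -/
noncomputable def M : Pt := (3, 3, 166)

theorem step (f : Pt → ℝ) (hf : RankOneConvex f) (P K : Pt) (hd : RankOneDir (K - P)) (hK : f K = 0)
    (t : ℝ) (ht0 : 0 ≤ t) (ht1 : t ≤ 1) (P' : Pt) (hP' : P' = P + t • (K - P)) :
    f P' ≤ (1 - t) * f P := by
  have hconv := (hf P (K - P) hd).2 (Set.mem_univ (0 : ℝ)) (Set.mem_univ (1 : ℝ))
    (sub_nonneg.2 ht1) ht0 (by ring)
  simp only [smul_eq_mul, mul_zero, mul_one, zero_add, zero_smul, add_zero, one_smul,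
    add_sub_cancel, hK] at hconv
  rw [hP']
  exact hconv

theorem κ0 : κ 0 = (0, 3, 115) := by simp [κ, kx, ky, g]
theorem κ1 : κ 1 = (1, 0, 0) := by simp [κ, kx, ky, g]
theorem κ2 : κ 2 = (5, 1, 140) := by simp [κ, kx, ky, g]
theorem κ3 : κ 3 = (4, 5, 200) := by simp [κ, kx, ky, g]
theorem κ4 : κ 4 = (2, 4, 127) := by simp [κ, kx, ky, g]
theorem κ5 : κ 5 = (3, 2, 179) := by simp [κ, kx, ky, g]

theorem M_mem : M ∈ convrc (Set.range κ) := by
  intro f hf hK
  have k0 : f (0, 3, 115) = 0 := by rw [← κ0]; exact hK _ ⟨0, rfl⟩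
  have k1 : f (1, 0, 0) = 0 := by rw [← κ1]; exact hK _ ⟨1, rfl⟩
  have k2 : f (5, 1, 140) = 0 := by rw [← κ2]; exact hK _ ⟨2, rfl⟩
  have k3 : f (4, 5, 200) = 0 := by rw [← κ3]; exact hK _ ⟨3, rfl⟩
  have k4 : f (2, 4, 127) = 0 := by rw [← κ4]; exact hK _ ⟨4, rfl⟩
  have k5 : f (3, 2, 179) = 0 := by rw [← κ5]; exact hK _ ⟨5, rfl⟩
  have dir : ∀ (a b c a' b' c' : ℝ), (a' ≠ a ∨ b' ≠ b) → (a' - a) * (b' - b) = 0 →
      RankOneDir (((a', b', c') : Pt) - (a, b, c)) := by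
    intro a b c a' b' c' hne h
    refine ⟨?_, h⟩
    intro h0
    have h1 : a' - a = 0 := congrArg Prod.fst h0
    have h2 : b' - b = 0 := congrArg (fun P : Pt => P.2.1) h0
    rcases hne with h | h
    · exact h (by linarith)
    · exact h (by linarith)
  have s1 := step f hf (3, 3, 166) (0, 3, 115) (dir _ _ _ _ _ _ (by norm_num) (by norm_num)) k0
    (2 / 3) (by norm_num) (by norm_num) (1, 3, 132) (by ext <;> simp <;> norm_num)
  have s2 := step f hf (1, 3, 132) (1, 0, 0) (dir _ _ _ _ _ _ (by norm_num) (by norm_num)) k1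
    (2 / 3) (by norm_num) (by norm_num) (1, 1, 44) (by ext <;> simp <;> norm_num)
  have s3 := step f hf (1, 1, 44) (5, 1, 140) (dir _ _ _ _ _ _ (by norm_num) (by norm_num)) k2
    (3 / 4) (by norm_num) (by norm_num) (4, 1, 116) (by ext <;> simp <;> norm_num)
  have s4 := step f hf (4, 1, 116) (4, 5, 200) (dir _ _ _ _ _ _ (by norm_num) (by norm_num)) k3
    (3 / 4) (by norm_num) (by norm_num) (4, 4, 179) (by ext <;> simp <;> norm_num)
  have s5 := step f hf (4, 4, 179) (2, 4, 127) (dir _ _ _ _ _ _ (by norm_num) (by norm_num)) k4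
    (1 / 2) (by norm_num) (by norm_num) (3, 4, 153) (by ext <;> simp <;> norm_num)
  have s6 := step f hf (3, 4, 153) (3, 2, 179) (dir _ _ _ _ _ _ (by norm_num) (by norm_num)) k5
    (1 / 2) (by norm_num) (by norm_num) (3, 3, 166) (by ext <;> simp <;> norm_num)
  show f (3, 3, 166) ≤ 0
  linarith

theorem M_not_mem : M ∉ U := by
  rintro (h | ⟨l, hl⟩)
  · have h1 : F0 M = 0 := by
      show 1 * (166 : ℝ) - I (fun i j => (ext 1000 g i j : ℝ)) 3 3 = 0
      have h2 := I_at 1000 g 3 3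
      have h3 : (((3 : Fin 6) : ℕ) : ℝ) = 3 := by norm_num
      rw [h3] at h2
      rw [h2]
      have h4 : g 3 3 = 166 := by decide
      rw [h4]
      norm_num
    linarith
  · have h1 : (3 : ℝ) = ((kx l : ℕ) : ℝ) := congrArg Prod.fst hl
    have h2 : (3 : ℝ) = ((ky l : ℕ) : ℝ) := congrArg (fun P : Pt => P.2.1) hl
    have h3 : (kx l : ℕ) = 3 := by exact_mod_cast h1.symm
    have h4 : (ky l : ℕ) = 3 := by exact_mod_cast h2.symm
    clear hl h1 h2
    revert l
    decide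

/-- There is a finite set of upper triangular matrices whose rank-one convex hull is not the
`T₄`-convex hull: some point of the rank-one convex hull lies in no `K^(i)`. -/
theorem result : ∃ K : Set Pt, K.Finite ∧ ∃ A ∈ convrc K, ∀ i, A ∉ iter K i :=
  ⟨Set.range κ, Set.finite_range κ, M, M_mem, fun i hi => M_not_mem (iter_sub i hi)⟩

end Pool.Agent.Results.MP_400093_an.SixCycle
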